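import Pool.Agent.Work.MP_b5407d_lp_helper21.Core

set_option autoImplicit false
open MeasureTheory Real Filter Topology
open scoped ContDiff

/-! Block BLP (helper21). -/

namespace Pool.Agent.Work.LPBM.helper21

theorem stmt_BLP (hIBP : Stmt_IBP) (hBOC : Stmt_BOC) (hDEN : Stmt_DEN) : Stmt_BLP := by
  intro n V κ hκ hV hw hconv φ hφ
  have hVc : Continuous V := hV.continuous
  have hwc : Continuous (wt V) := wt_cont hVc
  have hφc : Continuous φ := hφ.1.continuous
  have hφ2 : Integrable (fun x => (φ x) ^ 2 * wt V x) :=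
    int_of_zero hφ.2 ((hφc.pow 2).mul hwc)
      (fun x hx => by rw [image_eq_zero_of_notMem_tsupport hx]; ring)
  have hφ1 : ∀ j, Continuous (pd j φ) := fun j =>
    (pd_contDiff (m := 2) hφ.1 three_le j).continuous
  have i0 : Integrable (fun x => (∑ j, (pd j φ x) ^ 2) * wt V x) :=
    int_of_zero hφ.2 ((continuous_finsetSum _ fun j _ => (hφ1 j).pow 2).mul hwc)
      (fun x hx => by simp [pd_zero hx])
  apply le_of_forall_pos_le_add
  intro ε hε
  obtain ⟨u, hu, -, -, -, i6, hmain⟩ := core hIBP hBOC hDEN V hV hw φ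
    (hφ.1.of_le (by exact_mod_cast le_top)) hφ2 (ε / κ) (by positivity)
  have h1 : ∫ x, (2 * (∑ j, pd j φ x * pd j u x) - hs u x - hq V u x) * wt V x ≤
      ∫ x, κ⁻¹ * ((∑ j, (pd j φ x) ^ 2) * wt V x) := by
    apply integral_mono i6 (i0.const_mul _)
    intro x
    simp only
    rw [← mul_assoc]
    apply mul_le_mul_of_nonneg_right _ (wt_pos V x).le
    have h2 : 0 ≤ hs u x := by
      unfold hs
      exact Finset.sum_nonneg fun i _ => Finset.sum_nonneg fun j _ => sq_nonneg _
    have h3 : κ * ∑ j, (pd j u x) ^ 2 ≤ hq V u x := by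
      have := hconv x (fun j => pd j u x)
      unfold hq
      exact this
    have h4 : 2 * (∑ j, pd j φ x * pd j u x) - κ * ∑ j, (pd j u x) ^ 2 ≤
        κ⁻¹ * ∑ j, (pd j φ x) ^ 2 := by
      rw [Finset.mul_sum, Finset.mul_sum, Finset.mul_sum, ← Finset.sum_sub_distrib]
      apply Finset.sum_le_sum
      intro j _
      set a := pd j φ x
      set b := pd j u x
      have h5 : κ⁻¹ * a ^ 2 - (2 * (a * b) - κ * b ^ 2) = (a - κ * b) ^ 2 / κ := by
        field_simp
        ring
      have h6 : 0 ≤ (a - κ * b) ^ 2 / κ := by positivity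
      linarith
    linarith
  rw [integral_const_mul] at h1
  have h2 := mul_le_mul_of_nonneg_left (hmain.trans (add_le_add le_rfl h1)) hκ.le
  refine h2.trans (le_of_eq ?_)
  field_simp
  ring

end Pool.Agent.Work.LPBM.helper21
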