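import Pool.Agent.Work.MP_b5407d_lp_helper21.Core

set_option autoImplicit false
open MeasureTheory Real Filter Topology
open scoped ContDiff

/-! Block HSJ (helper21). -/

namespace Pool.Agent.Work.LPBM.helper21

theorem stmt_HSJ (hIBP : Stmt_IBP) (hBOC : Stmt_BOC) (hDEN : Stmt_DEN) : Stmt_HSJ := by
  intro n V hV hw hx2 Y hY hY2 ε hε
  have hVc : Continuous V := hV.continuous
  have hwc : Continuous (wt V) := wt_cont hVc
  have hYc : Continuous Y := hY.continuous
  set A : ℝ := 1 + ∑ j : Fin n, ∫ x : E n, (x j) ^ 2 * wt V x with hA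
  have hAj : ∀ j : Fin n, 0 ≤ ∫ x : E n, (x j) ^ 2 * wt V x := fun j =>
    integral_nonneg fun x => mul_nonneg (sq_nonneg _) (wt_pos V x).le
  have hA1 : 1 ≤ A := by
    rw [hA]
    have := Finset.sum_nonneg (s := Finset.univ) fun j _ => hAj j
    linarith
  have hAle : ∀ j : Fin n, ∫ x : E n, (x j) ^ 2 * wt V x ≤ A := by
    intro j
    have := Finset.single_le_sum (f := fun j => ∫ x : E n, (x j) ^ 2 * wt V x)
      (fun i _ => hAj i) (Finset.mem_univ j)
    rw [hA]
    linarith
  have hA0 : 0 < A := by linarith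
  obtain ⟨u, hu, hR, i5, hY'2, i6, hmain⟩ := core hIBP hBOC hDEN V hV hw Y hY hY2
    (min ε (ε ^ 2 / A)) (lt_min hε (by positivity))
  set m := mean V Y with hm
  refine ⟨u, hu, ?_, hmain.trans (by linarith [min_le_left ε (ε ^ 2 / A)])⟩
  intro j
  have hLc := Lop_cont hV hu
  have hxc : Continuous (fun x : E n => x j) := (EuclideanSpace.proj j : E n →L[ℝ] ℝ).continuous
  have hI := hIBP n V (fun x : E n => x j) u (hV.of_le (by norm_num))
    ((EuclideanSpace.proj j : E n →L[ℝ] ℝ).contDiff) (hu.1.of_le two_le) hu.2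
  have h1 : ∀ x : E n, (∑ i, pd i (fun x : E n => x j) x * pd i u x) = pd j u x := by
    intro x
    simp only [pd_coord]
    simp
  simp only [h1] at hI
  have i1 : Integrable (fun x : E n => x j * Lop V u x * wt V x) :=
    int_of_zero hu.2 ((hxc.mul hLc).mul hwc) (fun x hx => by rw [Lop_zero hx]; ring)
  have i2 : Integrable (fun x : E n => x j * (Y x - m) * wt V x) := by
    refine ((hx2 j).add hY'2).mono'
      ((hxc.mul (hYc.sub continuous_const)).mul hwc).aestronglyMeasurable ?_
    refine Eventually.of_forall fun x => ?_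
    have h1 := (wt_pos V x).le
    rw [norm_mul, Real.norm_eq_abs, Real.norm_eq_abs, abs_of_nonneg h1]
    simp only [Pi.add_apply]
    have h2 : |x j * (Y x - m)| ≤ (x j) ^ 2 + (Y x - m) ^ 2 := by
      rw [abs_le]
      constructor <;> nlinarith [sq_nonneg (x j - (Y x - m)), sq_nonneg (x j + (Y x - m)),
        sq_nonneg (x j), sq_nonneg (Y x - m)]
    nlinarith
  have e1 : (∫ x, pd j u x * wt V x) - ∫ x : E n, x j * (Y x - m) * wt V x =
      - ∫ x : E n, (x j * Lop V u x * wt V x + x j * (Y x - m) * wt V x) := by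
    rw [integral_add i1 i2, hI]
    ring
  have i3 : Integrable (fun x : E n => x j * Lop V u x * wt V x + x j * (Y x - m) * wt V x) :=
    i1.add i2
  rw [e1, abs_neg]
  have hεA : 0 < ε / A := by positivity
  have key : ∀ x : E n, ‖x j * Lop V u x * wt V x + x j * (Y x - m) * wt V x‖ ≤
      (ε / A) / 2 * ((x j) ^ 2 * wt V x) +
        (A / ε) / 2 * ((Lop V u x + (Y x - m)) ^ 2 * wt V x) := by
    intro x
    have h1 := (wt_pos V x).le
    have h2 : x j * Lop V u x * wt V x + x j * (Y x - m) * wt V x =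
        (x j * (Lop V u x + (Y x - m))) * wt V x := by ring
    rw [h2, norm_mul, Real.norm_eq_abs, Real.norm_eq_abs, abs_of_nonneg h1, ← mul_assoc,
      ← mul_assoc, ← add_mul]
    apply mul_le_mul_of_nonneg_right _ h1
    set a := x j
    set b := Lop V u x + (Y x - m)
    have h3 : A / ε = (ε / A)⁻¹ := by rw [inv_div]
    rw [h3]
    set s := ε / A
    have h4 : 0 < s := hεA
    rw [abs_mul]
    have h5 : 0 ≤ (s * |a| - |b|) ^ 2 := sq_nonneg _
    have h6 : s / 2 * a ^ 2 + s⁻¹ / 2 * b ^ 2 - |a| * |b| = (s * |a| - |b|) ^ 2 / (2 * s) := by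
      rw [← sq_abs a, ← sq_abs b]
      field_simp
      ring
    have h7 : 0 ≤ (s * |a| - |b|) ^ 2 / (2 * s) := by positivity
    linarith
  have h3 := norm_integral_le_of_norm_le (((hx2 j).const_mul ((ε / A) / 2)).add
    (i5.const_mul ((A / ε) / 2))) (Eventually.of_forall key)
  rw [Real.norm_eq_abs] at h3
  refine h3.trans ?_
  simp only [Pi.add_apply]
  rw [integral_add ((hx2 j).const_mul _) (i5.const_mul _), integral_const_mul, integral_const_mul]
  have h4 : (ε / A) / 2 * ∫ x : E n, (x j) ^ 2 * wt V x ≤ (ε / A) / 2 * A :=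
    mul_le_mul_of_nonneg_left (hAle j) (by positivity)
  have h5 : (A / ε) / 2 * ∫ x, (Lop V u x + (Y x - m)) ^ 2 * wt V x ≤
      (A / ε) / 2 * (ε ^ 2 / A) :=
    mul_le_mul_of_nonneg_left (hR.trans (min_le_right _ _)) (by positivity)
  have h6 : (ε / A) / 2 * A = ε / 2 := by field_simp
  have h7 : (A / ε) / 2 * (ε ^ 2 / A) = ε / 2 := by field_simp
  linarith

end Pool.Agent.Work.LPBM.helper21
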