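import Pool.Agent.Work.MP_b5407d_lp.Interface

set_option autoImplicit false
open MeasureTheory Real Filter Topology

/-! Block CHG: linear change of variables (helper21). -/

namespace Pool.Agent.Work.LPBM.helper21

theorem chg {n : ℕ} (A : E n ≃L[ℝ] E n) :
    ∃ c : ℝ, c ≠ 0 ∧ ∀ g : E n → ℝ, ∫ x, g (A x) = c * ∫ y, g y := by
  have hdet : LinearMap.det (A : E n →ₗ[ℝ] E n) ≠ 0 := by
    have h1 := (LinearEquiv.isUnit_det' A.toLinearEquiv).ne_zero
    exact h1
  refine ⟨|(LinearMap.det (A : E n →ₗ[ℝ] E n))⁻¹|, by simpa using hdet, ?_⟩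
  intro g
  have h1 := MeasureTheory.Measure.map_linearMap_addHaar_eq_smul_addHaar
    (volume : Measure (E n)) hdet
  have h2 : ∫ x, g (A x) = ∫ y, g y ∂(Measure.map A volume) :=
    (A.toHomeomorph.measurableEmbedding.integral_map g).symm
  have h3 : (Measure.map (A : E n → E n) volume) =
      Measure.map (A : E n →ₗ[ℝ] E n) volume := rfl
  rw [h2, h3, h1, integral_smul_measure, ENNReal.toReal_ofReal (abs_nonneg _), smul_eq_mul]

theorem stmt_CHG : Stmt_CHG := by
  intro n ι _ p k θ θ' h l l' A hθ hl f η η' hη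
  obtain ⟨c, hc, key⟩ := chg A
  have hV : ∀ x, Vpot k θ' h l' (A x) = Vpot k θ h l x := by
    intro x
    unfold Vpot Upot
    simp only [hθ, hl]
  have hwt : ∀ x, wt (Vpot k θ' h l') (A x) = wt (Vpot k θ h l) x := by
    intro x
    unfold wt
    rw [hV]
  have hW : ∀ x, W k θ' h l' (A x) = W k θ h l x := by
    intro x
    unfold W
    exact hwt x
  have hY : ∀ x, Yf k θ' h f η' (A x) = Yf k θ h f η x := by
    intro x
    unfold Yf
    simp only [hθ, hη]
  have hm : mean (Vpot k θ' h l') (Yf k θ' h f η') = mean (Vpot k θ h l) (Yf k θ h f η) := by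
    unfold mean
    have h1 := key (fun y => Yf k θ' h f η' y * wt (Vpot k θ' h l') y)
    have h2 := key (fun y => wt (Vpot k θ' h l') y)
    simp only [hY, hwt] at h1 h2
    rw [h1, h2, mul_div_mul_left _ _ hc]
  unfold LI
  have h1 := key (fun x => ((Yf k θ' h f η' x - mean (Vpot k θ' h l') (Yf k θ' h f η')) ^ 2
      - ∑ i, k ^ 2 * G2 (k * (inner ℝ (θ' i) x - h i)) * f i ^ 2
      + (1 - p) * ∑ i, k * G1 (k * (inner ℝ (θ' i) x - h i)) * (f i ^ 2 / h i)) *
        W k θ' h l' x)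
  have h2 := key (fun y => W k θ' h l' y)
  simp only [hY, hW, hθ] at h1 h2
  rw [hm] at h1
  rw [h1, h2, mul_div_mul_left _ _ hc, hm]

end Pool.Agent.Work.LPBM.helper21
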