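import Pool.Agent.Work.MP_b5407d_lp.Interface

set_option autoImplicit false
open MeasureTheory Real Filter Topology
open scoped ContDiff

/-! Common part of the blocks HSJ and BLP (helper21). -/

namespace Pool.Agent.Work.LPBM.helper21

variable {n : ℕ}

theorem three_le : (2 : ℕ∞ω) + 1 ≤ ∞ := by
  have h : ((3 : ℕ∞) : ℕ∞ω) ≤ ((⊤ : ℕ∞) : ℕ∞ω) := by exact_mod_cast le_top
  exact h

theorem two_le : (2 : ℕ∞ω) ≤ ∞ := le_trans (by norm_num) three_le

theorem pd_zero {u : E n → ℝ} {x : E n} (hx : x ∉ tsupport u) (j : Fin n) : pd j u x = 0 := by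
  unfold pd
  have h1 : fderiv ℝ u x = 0 := by
    by_contra h
    exact hx (support_fderiv_subset ℝ h)
  rw [h1]
  rfl

theorem tsupport_pd (u : E n → ℝ) (j : Fin n) : tsupport (pd j u) ⊆ tsupport u := by
  apply closure_minimal _ (isClosed_tsupport u)
  intro x hx
  by_contra h
  exact hx (pd_zero h j)

theorem pd_pd_zero {u : E n → ℝ} {x : E n} (hx : x ∉ tsupport u) (i j : Fin n) :
    pd i (pd j u) x = 0 :=
  pd_zero (fun h => hx (tsupport_pd u j h)) i

theorem pd_contDiff {u : E n → ℝ} {m k : ℕ∞ω} (h : ContDiff ℝ k u) (hmk : m + 1 ≤ k)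
    (j : Fin n) : ContDiff ℝ m (pd j u) := by
  unfold pd
  exact (h.fderiv_right hmk).clm_apply contDiff_const

theorem wt_cont {V : E n → ℝ} (hV : Continuous V) : Continuous (wt V) := by
  unfold wt
  fun_prop

theorem wt_pos (V : E n → ℝ) (x : E n) : 0 < wt V x := exp_pos _

theorem int_of_zero {u g : E n → ℝ} (hu : HasCompactSupport u) (hg : Continuous g)
    (h : ∀ x, x ∉ tsupport u → g x = 0) : Integrable g :=
  hg.integrable_of_hasCompactSupport (HasCompactSupport.intro hu h)

theorem Lop_cont {V u : E n → ℝ} (hV : ContDiff ℝ 2 V) (hu : Test u) : Continuous (Lop V u) := by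
  have h1 : ∀ j, ContDiff ℝ 2 (pd j u) := fun j => pd_contDiff hu.1 three_le j
  have h2 : ∀ j, Continuous (pd j (pd j u)) := fun j =>
    (pd_contDiff (m := 1) (h1 j) (by norm_num) j).continuous
  have h3 : ∀ j, Continuous (pd j V) := fun j =>
    (pd_contDiff (m := 1) hV (by norm_num) j).continuous
  have h4 : ∀ j, Continuous (pd j u) := fun j => (h1 j).continuous
  unfold Lop
  apply continuous_finsetSum
  intro j _
  exact (h2 j).sub ((h3 j).mul (h4 j))

theorem Lop_zero {V u : E n → ℝ} {x : E n} (hx : x ∉ tsupport u) : Lop V u x = 0 := by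
  unfold Lop
  simp [pd_zero hx, pd_pd_zero hx]

theorem hs_cont {u : E n → ℝ} (hu : Test u) : Continuous (hs u) := by
  have h1 : ∀ j, ContDiff ℝ 2 (pd j u) := fun j => pd_contDiff hu.1 three_le j
  have h2 : ∀ i j, Continuous (pd i (pd j u)) := fun i j =>
    (pd_contDiff (m := 1) (h1 j) (by norm_num) i).continuous
  unfold hs
  apply continuous_finsetSum
  intro i _
  apply continuous_finsetSum
  intro j _
  exact (h2 i j).pow 2

theorem hq_cont {V u : E n → ℝ} (hV : ContDiff ℝ 2 V) (hu : Test u) : Continuous (hq V u) := by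
  have h1 : ∀ j, ContDiff ℝ 2 (pd j u) := fun j => pd_contDiff hu.1 three_le j
  have h3 : ∀ i j, Continuous (pd i (pd j V)) := fun i j =>
    (pd_contDiff (m := 0) (pd_contDiff (m := 1) hV (by norm_num) j) (by norm_num) i).continuous
  unfold hq
  apply continuous_finsetSum
  intro i _
  apply continuous_finsetSum
  intro j _
  exact ((h3 i j).mul (h1 i).continuous).mul (h1 j).continuous

theorem hs_zero {u : E n → ℝ} {x : E n} (hx : x ∉ tsupport u) : hs u x = 0 := by
  unfold hs
  simp [pd_pd_zero hx]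

theorem hq_zero {V u : E n → ℝ} {x : E n} (hx : x ∉ tsupport u) : hq V u x = 0 := by
  unfold hq
  simp [pd_zero hx]

theorem pd_sub_const {Y : E n → ℝ} (m : ℝ) (j : Fin n) (x : E n) :
    pd j (fun x => Y x - m) x = pd j Y x := by
  unfold pd
  rw [fderiv_sub_const]

theorem pd_coord (i j : Fin n) (x : E n) : pd i (fun x : E n => x j) x = if i = j then 1 else 0 := by
  unfold pd
  have h1 : (fun x : E n => x j) = (EuclideanSpace.proj j : E n →L[ℝ] ℝ) := rfl
  rw [h1, ContinuousLinearMap.fderiv]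
  simp [eq_comm]

/-- the identity behind HSJ and BLP -/
theorem core (hIBP : Stmt_IBP) (hBOC : Stmt_BOC) (hDEN : Stmt_DEN) (V : E n → ℝ)
    (hV : ContDiff ℝ 2 V) (hw : Integrable (wt V)) (Y : E n → ℝ) (hY : ContDiff ℝ 1 Y)
    (hY2 : Integrable (fun x => (Y x) ^ 2 * wt V x)) (δ : ℝ) (hδ : 0 < δ) :
    ∃ u : E n → ℝ, Test u ∧ ∫ x, (Lop V u x + (Y x - mean V Y)) ^ 2 * wt V x ≤ δ ∧
      Integrable (fun x => (Lop V u x + (Y x - mean V Y)) ^ 2 * wt V x) ∧
      Integrable (fun x => (Y x - mean V Y) ^ 2 * wt V x) ∧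
      Integrable (fun x => (2 * (∑ j, pd j Y x * pd j u x) - hs u x - hq V u x) * wt V x) ∧
      ∫ x, (Y x - mean V Y) ^ 2 * wt V x
        ≤ δ + ∫ x, (2 * (∑ j, pd j Y x * pd j u x) - hs u x - hq V u x) * wt V x := by
  have hVc : Continuous V := hV.continuous
  have hwc : Continuous (wt V) := wt_cont hVc
  have hYc : Continuous Y := hY.continuous
  set m := mean V Y with hm
  have hY1 : Integrable (fun x => Y x * wt V x) := by
    refine (hY2.add hw).mono' (hYc.mul hwc).aestronglyMeasurable ?_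
    refine Eventually.of_forall fun x => ?_
    have h1 := (wt_pos V x).le
    rw [norm_mul, Real.norm_eq_abs, Real.norm_eq_abs, abs_of_nonneg h1]
    simp only [Pi.add_apply]
    have h2 : |Y x| ≤ Y x ^ 2 + 1 := by
      rw [abs_le]
      constructor <;> nlinarith [sq_nonneg (Y x - 1), sq_nonneg (Y x + 1)]
    nlinarith
  have hpos : 0 < ∫ x, wt V x := by
    rw [integral_pos_iff_support_of_nonneg (fun x => (wt_pos V x).le) hw]
    have h1 : Function.support (wt V) = Set.univ := by
      ext x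
      simp [(wt_pos V x).ne']
    rw [h1]
    exact isOpen_univ.measure_pos volume Set.univ_nonempty
  have hY'2 : Integrable (fun x => (Y x - m) ^ 2 * wt V x) := by
    have h1 : (fun x => (Y x - m) ^ 2 * wt V x) =
        fun x => (Y x) ^ 2 * wt V x - 2 * m * (Y x * wt V x) + m ^ 2 * wt V x := by
      funext x
      ring
    rw [h1]
    exact (hY2.sub (hY1.const_mul _)).add (hw.const_mul _)
  have hmean : ∫ x, (Y x - m) * wt V x = 0 := by
    have h1 : (fun x => (Y x - m) * wt V x) = fun x => Y x * wt V x - m * wt V x := by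
      funext x
      ring
    rw [h1, integral_sub hY1 (hw.const_mul _), integral_const_mul]
    rw [hm]
    unfold mean
    rw [div_mul_cancel₀ _ hpos.ne', sub_self]
  obtain ⟨u, hu, hR⟩ := hDEN n V hV hw (fun x => Y x - m)
    (hYc.sub continuous_const).aestronglyMeasurable hY'2 hmean δ hδ
  have hLc := Lop_cont hV hu
  have hu1 : ∀ j, Continuous (pd j u) := fun j =>
    (pd_contDiff (m := 2) hu.1 three_le j).continuous
  have hY1c : ∀ j, Continuous (pd j Y) := fun j =>
    (pd_contDiff (m := 0) hY (by norm_num) j).continuous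
  have i1 : Integrable (fun x => (Y x - m) * Lop V u x * wt V x) :=
    int_of_zero hu.2 (((hYc.sub continuous_const).mul hLc).mul hwc)
      (fun x hx => by rw [Lop_zero hx]; ring)
  have i2 : Integrable (fun x => (Lop V u x) ^ 2 * wt V x) :=
    int_of_zero hu.2 ((hLc.pow 2).mul hwc) (fun x hx => by rw [Lop_zero hx]; ring)
  have i3 : Integrable (fun x => (∑ j, pd j Y x * pd j u x) * wt V x) :=
    int_of_zero hu.2 ((continuous_finsetSum _ fun j _ => (hY1c j).mul (hu1 j)).mul hwc)
      (fun x hx => by simp [pd_zero hx])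
  have i4 : Integrable (fun x => (hs u x + hq V u x) * wt V x) :=
    int_of_zero hu.2 (((hs_cont hu).add (hq_cont hV hu)).mul hwc)
      (fun x hx => by rw [hs_zero hx, hq_zero hx]; ring)
  have e0 : ∀ x, (Lop V u x + (Y x - m)) ^ 2 * wt V x =
      (Lop V u x) ^ 2 * wt V x + 2 * ((Y x - m) * Lop V u x * wt V x) +
        (Y x - m) ^ 2 * wt V x := fun x => by ring
  have i5 : Integrable (fun x => (Lop V u x + (Y x - m)) ^ 2 * wt V x) := by
    simp_rw [e0]
    exact (i2.add (i1.const_mul 2)).add hY'2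
  have e1 : ∀ x, (2 * (∑ j, pd j Y x * pd j u x) - hs u x - hq V u x) * wt V x =
      2 * ((∑ j, pd j Y x * pd j u x) * wt V x) - (hs u x + hq V u x) * wt V x := fun x => by ring
  have i6 : Integrable (fun x => (2 * (∑ j, pd j Y x * pd j u x) - hs u x - hq V u x) * wt V x) := by
    simp_rw [e1]
    exact (i3.const_mul 2).sub i4
  refine ⟨u, hu, hR, i5, hY'2, i6, ?_⟩
  have hI := hIBP n V (fun x => Y x - m) u (hV.of_le (by norm_num)) (hY.sub contDiff_const)
    (hu.1.of_le two_le) hu.2
  simp only [pd_sub_const] at hI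
  have hB := hBOC n V u hV hu
  have h1 : ∫ x, (Lop V u x + (Y x - m)) ^ 2 * wt V x =
      (∫ x, (Lop V u x) ^ 2 * wt V x) + 2 * (∫ x, (Y x - m) * Lop V u x * wt V x) +
        ∫ x, (Y x - m) ^ 2 * wt V x := by
    simp_rw [e0]
    have h3 := integral_add (i2.add (i1.const_mul 2)) hY'2
    have h4 := integral_add i2 (i1.const_mul 2)
    simp only [Pi.add_apply] at h3
    rw [h3, h4, integral_const_mul]
  have h2 : ∫ x, (2 * (∑ j, pd j Y x * pd j u x) - hs u x - hq V u x) * wt V x =
      2 * (∫ x, (∑ j, pd j Y x * pd j u x) * wt V x) - ∫ x, (hs u x + hq V u x) * wt V x := by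
    simp_rw [e1]
    rw [integral_sub (i3.const_mul 2) i4, integral_const_mul]
  rw [h2, ← hB]
  rw [h1, hI] at hR
  linarith

end Pool.Agent.Work.LPBM.helper21
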